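import Pool.Agent.TFJ.Stmts

/-!
# TFJ, row WPM: words are homogeneous
-/

set_option autoImplicit false

namespace Pool.Agent.TFJ.H45

open Pool.Agent.TFJ

theorem wpm : WpmStmt := by
  intro G S _ _ A hA P
  induction P with
  | zero =>
    intro x d _
    have h1 : wprod x = 1 := by
      unfold wprod
      rw [List.ofFn_zero, List.prod_nil]
    have h2 : wprod d = 1 := by
      unfold wprod
      rw [List.ofFn_zero, List.prod_nil]
    rw [h1, h2]
    exact hA.one
  | succ P ih =>
    intro x d h
    have h1 : wprod x = x 0 * wprod fun j : Fin P => x j.succ := by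
      unfold wprod
      rw [List.ofFn_succ, List.prod_cons]
    have h2 : wprod d = d 0 * wprod fun j : Fin P => d j.succ := by
      unfold wprod
      rw [List.ofFn_succ, List.prod_cons]
    rw [h1, h2]
    exact hA.mul _ _ _ _ (h 0) (ih _ _ fun j => h j.succ)

end Pool.Agent.TFJ.H45
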